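import Pool.Agent.N86.CPU

/-!
The unit group of the universal CP monoid `U` is generated by the images of the symmetric groups
`S_d` under the maps `ψ_{Φ,τ}`, `(Φ; τ_1, …, τ_d) ∈ 𝕊(U)`.
-/

set_option autoImplicit false

universe u

namespace Pool.Agent.Results.MP_6189ff_al.SymmetricGeneration

open Pool.Agent.N86.CP

/-- If `U` with the CP structure `C` is the universal CP monoid (an initial object of the category of
CP monoids), then the group of units of `U` is generated by the union of the images
`ψ_{Φ,τ}(S_d)`, over all `d ≥ 2` and all `d`-CP structures `D = (Φ; τ)` in `𝕊(U)`. -/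
theorem result (U : Type u) [Monoid U] (C : DCP U 2) (hU : IsUniversal C) :
    Subgroup.closure {v : Uˣ | ∃ (d : ℕ) (D : DCP U d) (σ : Equiv.Perm (Fin d)),
      2 ≤ d ∧ InS C d D ∧ (v : U) = D.psi σ} = ⊤ :=
  closure_gensU C hU

end Pool.Agent.Results.MP_6189ff_al.SymmetricGeneration
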